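import Mathlib
import Pool.Agent.V11310.CL.Open
import Pool.Agent.Y939.NC.Std
import Pool.Agent.TH167.SH.Fam
import Pool.Agent.TH167.SH.Conv

set_option autoImplicit false

/-!
# Negative curves: no multiple of the class is in the closure of the known classes

Let `P 1, …, P s`, `s ≥ 4`, be very general points of the complex projective plane and let `C` be an
irreducible curve with `C ^ 2 < 0`, of class `d H - ∑ w i E i`, which is not a `(-1)`-curve. Then
NO multiple `(t d; t w)`, `t ≥ 1`, of this class is reached, or carried by finitely many reflections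
to a standard class which is reached. Moreover finitely many quadratic transformations carry the class
of `C` to the class `d1 H - ∑ w1 i E i`, `d1 ≤ d`, `w1 i ≤ w i`, of an irreducible curve at other very
general points, which is standard, and no multiple of this class is reached or carried to a standard
class which is reached; moreover `K C > 0`.

`Reached N0 d w` (`Pool.Agent.V11310.CL.Reached`): the multiset of the multiplicities `w` belongs, in
degree `d`, to the smallest class of multisets of multiplicities with one of the two signs (no curves,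
independent conditions) which contains the comparable, the large and the good classes (`Base`) and is
closed under collisions (a point of multiplicity `μ` may be replaced by points `M'` if `M'` is in the
class in degree `μ - 1`), quadratic transformations, doubling (four points of multiplicity `m` for one
point of the multiplicities `2 m` and `2 m + 1`), adding or removing points and changing the degree.
-/

namespace Pool.Agent.Results.MP_d3e5c7_ag.MultiplesNotReached

open MvPolynomial Pool.Agent.TH167 Pool.Agent.TH167.SHDefs Pool.Agent.Y939.NC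
open Pool.Agent.Y536.SH (Standard)
open Pool.Agent.V11310.CL (Covered covered_exp)

/-- The class of a multiple of an effective irreducible curve with `C ^ 2 < 0 < K C` is special. -/
theorem not_exp {s : ℕ} {P : Fin s → Fin 2 → ℂ} {d : ℕ} {w : Fin s → ℕ}
    {C : MvPolynomial (Fin 3) ℂ} (h0 : C ≠ 0) (hC : C.IsHomogeneous d)
    (hv : ∀ j, W609.CR.Van (W609.CR.aff (P j)) (w j) C) (hip : SH.ip d w d w < 0)
    (hkk : SH.kk d w < 0) {t : ℕ} (ht : 1 ≤ t) :
    ¬ Pool.Agent.H932R3.ExpDim ℂ (fun i => t * w i) P (t * d) := by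
  intro h6
  rw [Pool.Agent.TH442.NF.expDim_iff] at h6
  have h7 := SH.two_chi (t * d) (fun i => t * w i)
  have hmem : C ^ t ∈ W609.CR.VS (fun j => W609.CR.aff (P j)) (fun i => t * w i) (t * d) :=
    (SH.mem_VS _ _ _ _).2 ⟨by rw [mul_comm]; exact hC.pow t, fun j => SH.van_pow (hv j) t⟩
  have hfin := W609.CR.vs_fin (fun j => W609.CR.aff (P j)) (fun i => t * w i) (t * d)
  have hpos : 0 < Module.finrank ℂ
      ↥(W609.CR.VS (fun j => W609.CR.aff (P j)) (fun i => t * w i) (t * d)) :=
    Module.finrank_pos_iff.2 ⟨⟨C ^ t, hmem⟩, 0, fun h7 => pow_ne_zero t h0 (congrArg Subtype.val h7)⟩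
  have e1 : SH.ip (t * d) (fun i => t * w i) (t * d) (fun i => t * w i) = (t : ℤ) ^ 2 * SH.ip d w d w := by
    unfold SH.ip
    push_cast
    rw [mul_sub, Finset.mul_sum]
    congr 1
    · ring
    · exact Finset.sum_congr rfl fun i _ => by ring
  have e2 : SH.kk (t * d) (fun i => t * w i) = (t : ℤ) * SH.kk d w := by
    unfold SH.kk
    push_cast
    rw [mul_sub, Finset.mul_sum]
    congr 1
    ring
  have ht' : (1 : ℤ) ≤ t := by exact_mod_cast ht
  have h8 : SH.chi (t * d) (fun i => t * w i) ≤ 0 := by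
    rw [e1, e2] at h7
    nlinarith
  rw [max_eq_left h8] at h6
  omega

theorem result : ∃ N0 : ℕ, ∀ s : ℕ, 4 ≤ s →
    ∃ Z : ℕ → MvPolynomial (Fin s × Fin 2) ℂ, (∀ n, Z n ≠ 0) ∧
      ∀ P : Fin s → Fin 2 → ℂ,
        (∀ n, MvPolynomial.eval (fun ij : Fin s × Fin 2 => P ij.1 ij.2) (Z n) ≠ 0) →
        ∀ (d : ℕ) (w : Fin s → ℕ) (C : MvPolynomial (Fin 3) ℂ),
          Curve P C d w → inter d w d w < 0 → ¬ MinusOne P C d w →
          (∀ t : ℕ, 1 ≤ t → ¬ Covered N0 (t * d) (fun i => t * w i)) ∧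
          ∃ (P1 : Fin s → Fin 2 → ℂ) (d1 : ℕ) (w1 : Fin s → ℕ) (C1 : MvPolynomial (Fin 3) ℂ),
            (∀ n, MvPolynomial.eval (fun ij : Fin s × Fin 2 => P1 ij.1 ij.2) (Z n) ≠ 0) ∧
            Curve P1 C1 d1 w1 ∧ Relation.ReflTransGen Quadratic (d, w) (d1, w1) ∧
            Standard d1 w1 ∧ d1 ≤ d ∧ (∀ i, w1 i ≤ w i) ∧
            inter d1 w1 d1 w1 = inter d w d w ∧ interK d1 w1 = interK d w ∧
            0 < interK d w ∧
            ∀ t : ℕ, 1 ≤ t → ¬ Covered N0 (t * d1) (fun i => t * w1 i) := by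
  obtain ⟨N0, hN0⟩ := reg_exp
  refine ⟨N0, fun s hs => ?_⟩
  obtain ⟨r, rfl⟩ : ∃ r, s = r + 4 := ⟨s - 4, by omega⟩
  obtain ⟨Z, hZ, h⟩ := SH.exists_fam (Fin (r + 4) × Fin 2)
  refine ⟨Z, hZ, fun P hP0 d w C hC hneg hne => ?_⟩
  have hP := (h _).1 hP0
  obtain ⟨h1, h2, h3⟩ := SH.curve_iff.1 hC
  have hne' : ¬ (SH.ip d w d w = -1 ∧ SH.kk d w = 1) := fun h0 =>
    hne ⟨hC, by rw [SH.inter_eq, h0.1], by rw [SH.interK_eq, h0.2]⟩
  obtain ⟨M, hM⟩ : ∃ M, ∀ j, w j ≤ M := ⟨∑ j, w j, fun j =>
    Finset.single_le_sum (fun _ _ => Nat.zero_le _) (Finset.mem_univ j)⟩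
  have hw : SH.Few M d w := by
    left
    rw [Finset.filter_false_of_mem fun j _ => not_lt.2 (hM j)]
    simp
  obtain ⟨P1, d1, w1, C1, a1, a2, a3, a4, a5, a6, a7, a8⟩ :=
    Pool.Agent.Y939.NC.std_irr d P hP w hw C h1 h2 h3 hne'
  obtain ⟨c1, c2, c3⟩ := SH.quad_inv a5
  simp only at c1 c2 c3
  rw [SH.inter_eq] at hneg
  have hwd : ∀ j, w1 j ≤ d1 := fun j => SH.van_le a2.ne_zero a3 (a4 j).1
  have hK : SH.kk d1 w1 < 0 := by
    by_contra hcon
    push Not at hcon
    have h4 : 0 ≤ SH.kk d1 w1 := hcon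
    rw [SH.kk_cast] at h4
    have h5 := SH.red_ip a6 hwd (by omega)
    omega
  refine ⟨fun t ht hG => ?_, P1, d1, w1, C1, (h _).2 a1, SH.curve_iff.2 ⟨a2, a3, a4⟩,
    SH.chain_conv a5, a6, a7, a8,
    by rw [SH.inter_eq, SH.inter_eq, c3], by rw [SH.interK_eq, SH.interK_eq, c2], ?_,
    fun t ht hG => ?_⟩
  · refine not_exp h1.ne_zero h2 (fun j => (h3 j).1) hneg (by rw [← c2]; exact hK) ht ?_
    exact covered_exp hN0 (by omega) hG hP
  · rw [SH.interK_eq, ← c2]
    omega
  · refine not_exp a2.ne_zero a3 (fun j => (a4 j).1) (by rw [c3]; exact hneg) hK ht ?_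
    exact covered_exp hN0 (by omega) hG a1

end Pool.Agent.Results.MP_d3e5c7_ag.MultiplesNotReached
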